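import Pool.Agent.H43.DPC.Targets

/-!
# Hoelder's inequality, multilinearity, triangle inequality (row HOL)
-/

set_option autoImplicit false

open MeasureTheory SchwartzMap Filter Topology
open scoped ENNReal ContDiff

namespace Pool.Agent.H43.DPC

theorem HOL_memLp {d : ℕ} (μ : Measure (SD d)) [IsProbabilityMeasure μ] (hM : IsMAO μ) (n : ℕ)
    (f : Fin n → S d) : Integrable (fun φ : SD d => ∏ i, φ (f i)) μ := by
  rcases Nat.eq_zero_or_pos n with h0 | h0
  · subst h0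
    simp
  · have h := MemLp.prod' (s := Finset.univ) (f := fun (i : Fin n) (φ : SD d) => φ (f i))
      (p := fun _ => (n : ℝ≥0∞)) (μ := μ) (fun i _ => hM (f i) _ (ENNReal.natCast_ne_top n))
    have e : (∑ i : Fin n, ((n : ℝ≥0∞))⁻¹)⁻¹ = 1 := by
      rw [Finset.sum_const, Finset.card_univ, Fintype.card_fin, nsmul_eq_mul,
        ENNReal.mul_inv_cancel (by exact_mod_cast h0.ne') (ENNReal.natCast_ne_top n), inv_one]
    rw [e] at h
    exact memLp_one_iff_integrable.1 h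

theorem HOL_holder {d : ℕ} (μ : Measure (SD d)) [IsProbabilityMeasure μ] (hM : IsMAO μ) (n : ℕ)
    (hn : 1 ≤ n) (f : Fin n → S d) : |moment μ f| ≤ ∏ i, Nn μ n (f i) := by
  have hn0 : (n : ℝ≥0∞) ≠ 0 := by exact_mod_cast (by omega : n ≠ 0)
  have hnt : (n : ℝ≥0∞) ≠ ⊤ := ENNReal.natCast_ne_top n
  have hnr : (0 : ℝ) < n := by exact_mod_cast hn
  have e1 : ∀ g : S d, eLpNorm (fun φ : SD d => φ g) n μ =
      (∫⁻ φ : SD d, ‖φ g‖ₑ ^ (n : ℝ) ∂μ) ^ ((1 : ℝ) / n) := by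
    intro g
    rw [eLpNorm_eq_lintegral_rpow_enorm_toReal hn0 hnt]
    simp
  have h1 : ‖moment μ f‖ₑ ≤ ∏ i, eLpNorm (fun φ : SD d => φ (f i)) n μ := by
    unfold moment
    refine (enorm_integral_le_lintegral_enorm _).trans ?_
    have e2 : ∀ φ : SD d, ‖∏ i, φ (f i)‖ₑ = ∏ i, (‖φ (f i)‖ₑ ^ (n : ℝ)) ^ ((1 : ℝ) / n) := by
      intro φ
      have e3 : ‖∏ i, φ (f i)‖ₑ = ∏ i, ‖φ (f i)‖ₑ := by
        simp only [enorm_eq_nnnorm, nnnorm_prod]
        push_cast
        rfl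
      rw [e3]
      refine Finset.prod_congr rfl (fun i _ => ?_)
      rw [← ENNReal.rpow_mul, mul_one_div_cancel hnr.ne', ENNReal.rpow_one]
    simp_rw [e2, e1]
    refine ENNReal.lintegral_prod_norm_pow_le Finset.univ
      (f := fun (i : Fin n) (φ : SD d) => ‖φ (f i)‖ₑ ^ (n : ℝ)) (fun i _ => ?_) ?_
      (fun i _ => by positivity)
    · exact ((hM (f i) 1 ENNReal.one_ne_top).1.enorm).pow_const _
    · rw [Finset.sum_const, Finset.card_univ, Fintype.card_fin, nsmul_eq_mul,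
        mul_one_div_cancel hnr.ne']
  have hfin : ∏ i, eLpNorm (fun φ : SD d => φ (f i)) n μ ≠ ⊤ :=
    ENNReal.prod_ne_top (fun i _ => (hM (f i) n hnt).2.ne)
  have h2 := ENNReal.toReal_mono hfin h1
  rw [ENNReal.toReal_prod] at h2
  have e4 : (‖moment μ f‖ₑ).toReal = |moment μ f| := by
    rw [toReal_enorm, Real.norm_eq_abs]
  rw [e4] at h2
  exact h2

theorem HOL_multi {d : ℕ} (μ : Measure (SD d)) [IsProbabilityMeasure μ] (hM : IsMAO μ) (n : ℕ) :
    ∃ M : MultilinearMap ℝ (fun _ : Fin n => S d) ℝ, ∀ f, M f = moment μ f := by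
  classical
  have hA : ∀ φ : SD d, ∃ A : MultilinearMap ℝ (fun _ : Fin n => S d) ℝ,
      ∀ f, A f = ∏ i, φ (f i) := by
    intro φ
    refine ⟨(MultilinearMap.mkPiAlgebra ℝ (Fin n) ℝ).compLinearMap
      (fun _ => (WeakDual.toStrongDual φ : S d →L[ℝ] ℝ).toLinearMap), fun f => ?_⟩
    simp [MultilinearMap.compLinearMap_apply, MultilinearMap.mkPiAlgebra_apply]
  choose A hA using hA
  refine ⟨MultilinearMap.mk' (fun f => moment μ f) ?_ ?_, fun f => rfl⟩
  · intro m i x y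
    change moment μ _ = moment μ _ + moment μ _
    unfold moment
    rw [← integral_add (HOL_memLp μ hM n _) (HOL_memLp μ hM n _)]
    congr 1
    funext φ
    rw [← hA, ← hA, ← hA]
    exact (A φ).map_update_add m i x y
  · intro m i c x
    change moment μ _ = c • moment μ _
    unfold moment
    rw [← integral_smul]
    congr 1
    funext φ
    rw [← hA, ← hA]
    exact (A φ).map_update_smul m i c x

theorem HOL_tri {d : ℕ} (μ : Measure (SD d)) [IsProbabilityMeasure μ] (hM : IsMAO μ) (n : ℕ)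
    (hn : 1 ≤ n) (f g : S d) : Nn μ n (f + g) ≤ Nn μ n f + Nn μ n g := by
  have hnt : (n : ℝ≥0∞) ≠ ⊤ := ENNReal.natCast_ne_top n
  have h1 : (1 : ℝ≥0∞) ≤ n := by exact_mod_cast hn
  have hf := hM f n hnt
  have hg := hM g n hnt
  have h2 := eLpNorm_add_le hf.1 hg.1 h1
  have e : (fun φ : SD d => φ (f + g)) = (fun φ : SD d => φ f) + fun φ : SD d => φ g := by
    funext φ
    exact map_add φ f g
  unfold Nn
  rw [e, ← ENNReal.toReal_add hf.2.ne hg.2.ne]
  exact ENNReal.toReal_mono (ENNReal.add_ne_top.2 ⟨hf.2.ne, hg.2.ne⟩) h2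

theorem HOL : T_HOL := fun _ μ _ hM =>
  ⟨HOL_holder μ hM, HOL_multi μ hM, HOL_tri μ hM⟩

end Pool.Agent.H43.DPC
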